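import Mathlib

/-!
# Linking systems of difference sets with Menon parameters and abelian quotients

`MP_16ad2f_co`, Q1, asks for reduced linking systems of nontrivial difference sets in groups that
are not 2-groups.  Let `N >= 2`, let `m` be odd and let `G` be a group (abelian or not) of order
`4 (N m)^2` with an abelian quotient `Q` of order `4 N^2`, such that each prime divisor `p` of `m`
is self-conjugate modulo `n`, where `q^n = 1` in `Q`: some power of `p` is `-1` modulo `n`.  It is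
shown that a reduced linking system in `G` with the Menon parameters yields one with the Menon
parameters in `Q`.

Proof.  Let `y` be the image of `G - 2 D` in `Z[Q]`, so that `y y* = 4 (N m)^2`.  Modulo a prime
`p` dividing `m` the Frobenius map of `F_p[Q]` gives `y^(p^j) = y*`, hence `y^(p^j + 1) = 0` and
`y = y^(p^(2 j)) = 0`.  So `m` divides `y`.  The quotient `z = y / m` has odd coefficients and
`z z* = 4 N^2`, hence all its coefficients are `1` or `-1`.  The linking relation is mapped to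
a relation `z_1 z_2* = k Q - 2 (d / m) z_3`, and comparing the sums of the coefficients and of
their squares gives `k = 0` or `k = 2` and `d = m N (k - 1)`.
-/
open Finset
set_option autoImplicit false
namespace Pool.Agent.Results.MP_16ad2f_co.MenonQuotient

/-- the coefficients of `A B^(-1)` in the group ring -/
def conv {G : Type} [Group G] [Fintype G] (A B : G → ℤ) (g : G) : ℤ := ∑ x, A (g * x) * B x

theorem frob {p : ℕ} [Fact p.Prime] {n j : ℕ} (hj : 0 < j) (hp : n ∣ p ^ j + 1) {Q : Type}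
    [CommGroup Q] [Fintype Q] [DecidableEq Q] (hQ : ∀ q : Q, q ^ n = 1) (y : Q → ℤ)
    (h : ∀ q, (p : ℤ) ∣ conv y y q) (q : Q) : (p : ℤ) ∣ y q := by
  have : CharP (MonoidAlgebra (ZMod p) Q) p :=
    charP_of_injective_algebraMap (algebraMap (ZMod p) (MonoidAlgebra (ZMod p) Q)).injective p
  have : ExpChar (MonoidAlgebra (ZMod p) Q) p := ExpChar.prime Fact.out
  have hpp : p.Prime := Fact.out
  obtain ⟨Y, hY⟩ : ∃ Y : MonoidAlgebra (ZMod p) Q, Y = ∑ q, MonoidAlgebra.single q ((y q : ℤ) : ZMod p) := ⟨_, rfl⟩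
  obtain ⟨Z, hZ⟩ : ∃ Z : MonoidAlgebra (ZMod p) Q, Z = ∑ q, MonoidAlgebra.single (q⁻¹) ((y q : ℤ) : ZMod p) := ⟨_, rfl⟩
  have hpow : ∀ q : Q, q ^ p ^ j = q⁻¹ := by
    intro q
    obtain ⟨t, ht⟩ := hp
    refine eq_inv_of_mul_eq_one_left ?_
    rw [← pow_succ, ht, pow_mul, hQ, one_pow]
  have h1 : Y ^ p ^ j = Z := by
    rw [hY, hZ, sum_pow_char_pow]
    refine Finset.sum_congr rfl fun q _ => ?_
    rw [MonoidAlgebra.single_pow, hpow, ZMod.pow_card_pow]
  have h2 : Z ^ p ^ j = Y := by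
    rw [hY, hZ, sum_pow_char_pow]
    refine Finset.sum_congr rfl fun q _ => ?_
    rw [MonoidAlgebra.single_pow, hpow, ZMod.pow_card_pow, inv_inv]
  have h3 : Y * Z = 0 := by
    have e1 : Y * Z = ∑ g : Q, MonoidAlgebra.single g ((conv y y g : ℤ) : ZMod p) := by
      rw [hY, hZ, Finset.sum_mul_sum]
      rw [Finset.sum_comm]
      have e2 : ∀ g : Q, MonoidAlgebra.single g ((conv y y g : ℤ) : ZMod p) =
          ∑ x, MonoidAlgebra.single g (((y (g * x) : ℤ) : ZMod p) * ((y x : ℤ) : ZMod p)) := by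
        intro g
        rw [conv]
        push_cast
        exact (map_sum (MonoidAlgebra.singleAddHom g) _ _)
      simp_rw [e2]
      rw [Finset.sum_comm (s := Finset.univ) (t := Finset.univ)
        (f := fun g x => MonoidAlgebra.single g (((y (g * x) : ℤ) : ZMod p) * ((y x : ℤ) : ZMod p)))]
      refine Finset.sum_congr rfl fun x _ => ?_
      refine Fintype.sum_equiv (Equiv.mulRight x⁻¹) _ _ fun a => ?_
      simp [MonoidAlgebra.single_mul_single]
    rw [e1]
    refine Finset.sum_eq_zero fun g _ => ?_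
    rw [(ZMod.intCast_zmod_eq_zero_iff_dvd _ _).2 (h g), MonoidAlgebra.single_zero]
  have h4 : Y = 0 := by
    have e1 : Y ^ (p ^ j + 1) = 0 := by rw [pow_succ, h1, mul_comm, h3]
    have e2 : Y ^ (p ^ j * p ^ j) = Y := by rw [pow_mul, h1, h2]
    rw [← e2]
    have h2p : 2 ≤ p ^ j := hpp.two_le.trans (Nat.le_self_pow hj.ne' p)
    have hle : p ^ j + 1 ≤ p ^ j * p ^ j := by nlinarith
    exact pow_eq_zero_of_le hle e1
  have h5 : Y.coeff q = ((y q : ℤ) : ZMod p) := by
    rw [hY]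
    simp [MonoidAlgebra.coeff_sum, Finsupp.finsetSum_apply, Finsupp.single_apply]
  rw [h4] at h5
  exact (ZMod.intCast_zmod_eq_zero_iff_dvd _ _).1 (by rw [← h5]; simp)

/-- `1 - 2 D` in the group ring -/
def sgn {G : Type} [DecidableEq G] (D : Finset G) (g : G) : ℤ := if g ∈ D then -1 else 1

/-- the image of an element of the group ring -/
def push {G Q : Type} [Group G] [Fintype G] [CommGroup Q] [DecidableEq Q] (f : G →* Q)
    (A : G → ℤ) (q : Q) : ℤ := ∑ g, if f g = q then A g else 0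

/-- the number of representations of `g` as a quotient of an element of `D` and one of `E` -/
def reps {G : Type} [Group G] [DecidableEq G] (D E : Finset G) (g : G) : ℕ :=
  ((D ×ˢ E).filter (fun p : G × G => p.1 * p.2⁻¹ = g)).card

theorem reps_eq {G : Type} [Group G] [Fintype G] [DecidableEq G] (D E : Finset G) (g : G) :
    (reps D E g : ℤ) = ∑ x, (if g * x ∈ D then (1 : ℤ) else 0) * (if x ∈ E then 1 else 0) := by
  have h1 : reps D E g = (Finset.univ.filter (fun x => g * x ∈ D ∧ x ∈ E)).card := by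
    unfold reps
    refine Finset.card_bij (fun p _ => p.2) ?_ ?_ ?_
    · rintro ⟨a, b⟩ h
      simp only [Finset.mem_filter, Finset.mem_product, Finset.mem_univ, true_and] at h ⊢
      obtain ⟨⟨ha, hb⟩, h⟩ := h
      refine ⟨?_, hb⟩
      rw [← h]
      simpa using ha
    · rintro ⟨a, b⟩ h ⟨a', b'⟩ h' e
      simp only [Finset.mem_filter, Finset.mem_product] at h h' e
      subst e
      have := h.2.trans h'.2.symm
      simpa using this
    · intro x hx
      simp only [Finset.mem_filter, Finset.mem_univ, true_and] at hx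
      exact ⟨(g * x, x), by simp [hx.1, hx.2], rfl⟩
  rw [h1, Finset.card_filter]
  push_cast
  refine Finset.sum_congr rfl fun x _ => ?_
  by_cases a : g * x ∈ D <;> by_cases b : x ∈ E <;> simp [a, b]

theorem sum_ind {G : Type} [Fintype G] [DecidableEq G] (D : Finset G) :
    ∑ x, (if x ∈ D then (1 : ℤ) else 0) = D.card := by
  simp

theorem conv_sgn {G : Type} [Group G] [Fintype G] [DecidableEq G] (D E : Finset G) (g : G) :
    conv (sgn D) (sgn E) g = Fintype.card G - 2 * D.card - 2 * E.card + 4 * reps D E g := by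
  have h1 : ∑ x, (if g * x ∈ D then (1 : ℤ) else 0) = D.card := by
    rw [← sum_ind D]
    exact Fintype.sum_equiv (Equiv.mulLeft g) _ _ fun x => rfl
  have h2 : ∀ x, sgn D (g * x) * sgn E x = 1 - 2 * (if g * x ∈ D then (1 : ℤ) else 0)
      - 2 * (if x ∈ E then (1 : ℤ) else 0)
      + 4 * ((if g * x ∈ D then (1 : ℤ) else 0) * (if x ∈ E then 1 else 0)) := by
    intro x
    unfold sgn
    by_cases a : g * x ∈ D <;> by_cases b : x ∈ E <;> simp [a, b]
  unfold conv
  simp_rw [h2]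
  rw [Finset.sum_add_distrib, Finset.sum_sub_distrib, Finset.sum_sub_distrib, ← Finset.mul_sum,
    ← Finset.mul_sum, ← Finset.mul_sum, h1, sum_ind, ← reps_eq]
  simp

theorem conv_push {G Q : Type} [Group G] [Fintype G] [CommGroup Q] [Fintype Q] [DecidableEq Q]
    (f : G →* Q) (A B : G → ℤ) (q : Q) :
    conv (push f A) (push f B) q = push f (conv A B) q := by
  unfold conv push
  have h1 : ∀ x : Q, (∑ g, if f g = q * x then A g else 0) * (∑ g, if f g = x then B g else 0)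
      = ∑ b, if f b = x then B b * (∑ g, if f g = q * f b then A g else 0) else 0 := by
    intro x
    rw [Finset.mul_sum]
    refine Finset.sum_congr rfl fun b _ => ?_
    by_cases hb : f b = x
    · simp [hb, mul_comm]
    · simp [hb]
  simp_rw [h1]
  rw [Finset.sum_comm]
  have h2 : ∀ b, (∑ x, if f b = x then B b * (∑ g, if f g = q * f b then A g else 0) else 0)
      = B b * (∑ g, if f g = q * f b then A g else 0) := by
    intro b
    simp
  simp_rw [h2]
  have h3 : ∀ g, (if f g = q then ∑ x, A (g * x) * B x else 0)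
      = ∑ x, if f g = q then A (g * x) * B x else 0 := by
    intro g
    split_ifs <;> simp
  simp_rw [h3]
  rw [Finset.sum_comm]
  refine Finset.sum_congr rfl fun b _ => ?_
  rw [Finset.mul_sum]
  refine Fintype.sum_equiv (Equiv.mulRight b⁻¹) _ _ fun a => ?_
  simp only [Equiv.coe_mulRight, map_mul, map_inv, inv_mul_cancel_right]
  have e : (f a * (f b)⁻¹ = q) ↔ (f a = q * f b) := mul_inv_eq_iff_eq_mul
  by_cases hh : f a = q * f b
  · rw [if_pos hh, if_pos (e.2 hh), mul_comm]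
  · rw [if_neg hh, if_neg (fun h => hh (e.1 h)), mul_zero]

theorem div_step {Q : Type} [CommGroup Q] [Fintype Q] [DecidableEq Q] {n₀ : ℕ} (c : ℤ)
    (hQ : ∀ q : Q, q ^ n₀ = 1) :
    ∀ (m : ℕ), 0 < m → (∀ p, p.Prime → p ∣ m → ∃ j, 0 < j ∧ n₀ ∣ p ^ j + 1) → ∀ (y : Q → ℤ),
      (∀ q, conv y y q = if q = 1 then c * (m : ℤ) ^ 2 else 0) →
      ∃ z : Q → ℤ, (∀ q, y q = m * z q) ∧ ∀ q, conv z z q = if q = 1 then c else 0 := by
  intro m
  induction m using Nat.strong_induction_on with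
  | _ m ih =>
    intro hm hp y hy
    by_cases h1 : m = 1
    · subst h1
      exact ⟨y, fun q => by simp, fun q => by rw [hy]; simp⟩
    · obtain ⟨p, hpp, hpm⟩ := Nat.exists_prime_and_dvd h1
      obtain ⟨n, rfl⟩ := hpm
      have hn : 0 < n := by
        rcases Nat.eq_zero_or_pos n with h | h
        · simp [h] at hm
        · exact h
      have := Fact.mk hpp
      have h2 : ∀ q, (p : ℤ) ∣ y q := by
        obtain ⟨j, hj, hpj⟩ := hp p hpp (dvd_mul_right _ _)
        refine frob hj hpj hQ y fun q => ?_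
        rw [hy]
        split_ifs
        · push_cast
          exact ⟨c * p * n ^ 2, by ring⟩
        · exact dvd_zero _
      choose z hz using h2
      have hp0 : (p : ℤ) ≠ 0 := by exact_mod_cast hpp.ne_zero
      have h3 : ∀ q, conv z z q = if q = 1 then c * (n : ℤ) ^ 2 else 0 := by
        intro q
        have e1 : conv y y q = (p : ℤ) ^ 2 * conv z z q := by
          unfold conv
          rw [Finset.mul_sum]
          refine Finset.sum_congr rfl fun x _ => ?_
          rw [hz, hz]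
          ring
        rw [hy] at e1
        split_ifs at e1 ⊢ with hq
        · push_cast at e1
          have : (p : ℤ) ^ 2 * conv z z q = (p : ℤ) ^ 2 * (c * (n : ℤ) ^ 2) := by
            rw [← e1]; ring
          exact mul_left_cancel₀ (pow_ne_zero 2 hp0) this
        · have : (p : ℤ) ^ 2 * conv z z q = (p : ℤ) ^ 2 * 0 := by rw [← e1]; ring
          exact mul_left_cancel₀ (pow_ne_zero 2 hp0) this
      have hlt : n < p * n := by nlinarith [hpp.two_le]
      obtain ⟨w, hw1, hw2⟩ := ih n hlt hn (fun r hr hrn => hp r hr (dvd_mul_of_dvd_right hrn _)) z h3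
      refine ⟨w, fun q => ?_, hw2⟩
      rw [hz, hw1]
      push_cast
      ring

/-- `D` is a difference set with `k` elements in which every non-identity element of the group has
`lam` representations as a quotient of two elements of `D`. -/
def IsDiffSet {G : Type} [Group G] [DecidableEq G] (D : Finset G) (k lam : ℕ) : Prop :=
  D.card = k ∧ ∀ g : G, g ≠ 1 → reps D D g = lam

theorem reps_one {G : Type} [Group G] [DecidableEq G] (D : Finset G) : reps D D 1 = D.card := by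
  unfold reps
  refine Finset.card_bij (fun p _ => p.1) ?_ ?_ ?_
  · rintro ⟨a, b⟩ h
    simp only [Finset.mem_filter, Finset.mem_product] at h ⊢
    exact h.1.1
  · rintro ⟨a, b⟩ h ⟨a', b'⟩ h' e
    simp only [Finset.mem_filter, Finset.mem_product] at h h' e
    have h2 := mul_inv_eq_one.1 h.2
    have h3 := mul_inv_eq_one.1 h'.2
    rw [← h2, ← h3, e]
  · intro x hx
    exact ⟨(x, x), by simp [hx], rfl⟩

theorem push_const {G Q : Type} [Group G] [Fintype G] [CommGroup Q] [Fintype Q] [DecidableEq Q]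
    (f : G →* Q) (hf : Function.Surjective f) (s : ℕ)
    (hs : Fintype.card G = Fintype.card Q * s) (q : Q) :
    (Finset.univ.filter (fun g => f g = q)).card = s := by
  classical
  have h1 : ∀ q' : Q, (Finset.univ.filter (fun g => f g = q')).card
      = (Finset.univ.filter (fun g => f g = q)).card := fun q' =>
    MonoidHom.card_fiber_eq_of_mem_range f (hf q') (hf q)
  have h2 : Fintype.card G = ∑ q' : Q, (Finset.univ.filter (fun g => f g = q')).card := by
    rw [← Finset.card_univ]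
    exact Finset.card_eq_sum_card_fiberwise (fun _ _ => Finset.mem_coe.2 (Finset.mem_univ _))
  simp_rw [h1] at h2
  rw [Finset.sum_const, Finset.card_univ, smul_eq_mul, hs] at h2
  exact (Nat.eq_of_mul_eq_mul_left Fintype.card_pos h2).symm

theorem transfer {G Q : Type} [Group G] [Fintype G] [DecidableEq G] [CommGroup Q] [Fintype Q]
    [DecidableEq Q] {n : ℕ} (hQ : ∀ q : Q, q ^ n = 1) (N : ℕ)
    (hc : Fintype.card Q = 4 * N ^ 2) (K L : ℕ) (hK : K + N = 2 * N ^ 2) (hL : L + N = N ^ 2)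
    (m k lam : ℕ) (hm : 0 < m) (hmodd : m % 2 = 1) (hp : ∀ p, p.Prime → p ∣ m → ∃ j, 0 < j ∧ n ∣ p ^ j + 1)
    (hG : Fintype.card G = 4 * N ^ 2 * m ^ 2) (hk : k + N * m = 2 * N ^ 2 * m ^ 2)
    (hl : lam + N * m = N ^ 2 * m ^ 2) (f : G →* Q) (hf : Function.Surjective f)
    (D : Finset G) (hD : IsDiffSet D k lam) :
    ∃ D' : Finset Q, IsDiffSet D' K L ∧ ∀ q, push f (sgn D) q = m * sgn D' q := by
  have hkz : (k : ℤ) = 2 * (N : ℤ) ^ 2 * (m : ℤ) ^ 2 - N * m := by
    have : ((k + N * m : ℕ) : ℤ) = ((2 * N ^ 2 * m ^ 2 : ℕ) : ℤ) := by rw [hk]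
    push_cast at this
    linarith
  have hlz : (lam : ℤ) = (N : ℤ) ^ 2 * (m : ℤ) ^ 2 - N * m := by
    have : ((lam + N * m : ℕ) : ℤ) = ((N ^ 2 * m ^ 2 : ℕ) : ℤ) := by rw [hl]
    push_cast at this
    linarith
  have hKz : (K : ℤ) = 2 * (N : ℤ) ^ 2 - N := by
    have : ((K + N : ℕ) : ℤ) = ((2 * N ^ 2 : ℕ) : ℤ) := by rw [hK]
    push_cast at this
    linarith
  have hLz : (L : ℤ) = (N : ℤ) ^ 2 - N := by
    have : ((L + N : ℕ) : ℤ) = ((N ^ 2 : ℕ) : ℤ) := by rw [hL]
    push_cast at this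
    linarith
  have hGz : (Fintype.card G : ℤ) = 4 * (N : ℤ) ^ 2 * (m : ℤ) ^ 2 := by rw [hG]; push_cast; ring
  have hcz : (Fintype.card Q : ℤ) = 4 * (N : ℤ) ^ 2 := by rw [hc]; push_cast; ring
  have hmz : (m : ℤ) ≠ 0 := by exact_mod_cast hm.ne'
  have h1 : ∀ g, conv (sgn D) (sgn D) g = if g = 1 then 4 * (N : ℤ) ^ 2 * (m : ℤ) ^ 2 else 0 := by
    intro g
    rw [conv_sgn, hGz]
    by_cases hg : g = 1
    · rw [if_pos hg, hg, reps_one, hD.1]
      ring
    · rw [if_neg hg, hD.2 g hg, hD.1, hkz, hlz]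
      ring
  have h2 : ∀ q, conv (push f (sgn D)) (push f (sgn D)) q
      = if q = 1 then 4 * (N : ℤ) ^ 2 * (m : ℤ) ^ 2 else 0 := by
    intro q
    rw [conv_push]
    unfold push
    simp_rw [h1]
    rw [Finset.sum_eq_single (1 : G)]
    · by_cases hq : q = 1
      · simp [hq]
      · rw [map_one, if_neg (fun h => hq h.symm), if_neg hq]
    · intro g _ hg
      simp [hg]
    · intro h
      exact absurd (Finset.mem_univ _) h
  obtain ⟨z, hz1, hz2⟩ := div_step (4 * (N : ℤ) ^ 2) hQ m hm hp _ h2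
  -- the coefficients are odd
  have hfib := push_const f hf (m ^ 2) (by rw [hG, hc])
  have hodd : ∀ q, ¬ (2 : ℤ) ∣ z q := by
    intro q hq
    have e1 : push f (sgn D) q = (m : ℤ) ^ 2 - 2 * ((Finset.univ.filter
        (fun g => f g = q ∧ g ∈ D)).card : ℤ) := by
      have e2 : ∀ g, (if f g = q then sgn D g else 0) = (if f g = q then (1 : ℤ) else 0)
          - 2 * (if f g = q ∧ g ∈ D then (1 : ℤ) else 0) := by
        intro g
        unfold sgn
        by_cases a : f g = q <;> by_cases b : g ∈ D <;> simp [a, b]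
      unfold push
      simp_rw [e2]
      rw [Finset.sum_sub_distrib, ← Finset.mul_sum]
      have e3 := hfib q
      rw [Finset.card_filter] at e3
      rw [Finset.card_filter]
      have e4 : (∑ g, if f g = q then (1 : ℤ) else 0) = (m : ℤ) ^ 2 := by
        have := congrArg (fun n : ℕ => (n : ℤ)) e3
        push_cast at this
        exact this
      rw [e4]
      push_cast
      rfl
    have e5 : (m : ℤ) % 2 = 1 := by exact_mod_cast hmodd
    have e6 : ((m : ℤ) ^ 2) % 2 = 1 := by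
      rw [pow_two, Int.mul_emod, e5]; rfl
    rw [hz1 q] at e1
    obtain ⟨t, ht⟩ := hq
    rw [ht] at e1
    have e7 : (m : ℤ) ^ 2 = 2 * (m * t + ((Finset.univ.filter
        (fun g => f g = q ∧ g ∈ D)).card : ℤ)) := by linarith
    rw [e7] at e6
    omega
  have hsq : ∑ q, z q * z q = 4 * (N : ℤ) ^ 2 := by
    have := hz2 1
    simpa [conv] using this
  have hge : ∀ q, 1 ≤ z q * z q := by
    intro q
    have : z q ≠ 0 := fun h => hodd q (by rw [h]; exact dvd_zero _)
    nlinarith [mul_self_pos.2 this]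
  have hone : ∀ q, z q * z q = 1 := by
    have e1 : ∑ q, (z q * z q - 1) = 0 := by
      rw [Finset.sum_sub_distrib, hsq]
      simp [hc]
    intro q
    have e2 := (Finset.sum_eq_zero_iff_of_nonneg (fun q _ => by linarith [hge q])).1 e1 q
      (Finset.mem_univ _)
    linarith
  have hpm : ∀ q, z q = 1 ∨ z q = -1 := fun q => mul_self_eq_one_iff.1 (hone q)
  refine ⟨Finset.univ.filter (fun q => z q = -1), ?_, ?_⟩
  swap
  · intro q
    rw [hz1]
    unfold sgn
    rcases hpm q with h | h <;> simp [h]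
  have hzs : z = sgn (Finset.univ.filter (fun q => z q = -1)) := by
    funext q
    unfold sgn
    rcases hpm q with h | h <;> simp [h]
  have hsum : ∑ q, z q = 2 * N := by
    have e1 : ∑ q, push f (sgn D) q = ∑ g, sgn D g := by
      unfold push
      rw [Finset.sum_comm]
      simp
    have e2 : ∑ g, sgn D g = 4 * (N : ℤ) ^ 2 * (m : ℤ) ^ 2 - 2 * k := by
      have e3 : ∀ g, sgn D g = 1 - 2 * (if g ∈ D then (1 : ℤ) else 0) := by
        intro g
        unfold sgn
        by_cases b : g ∈ D <;> simp [b]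
      simp_rw [e3]
      rw [Finset.sum_sub_distrib, ← Finset.mul_sum, sum_ind, hD.1, ← hGz]
      simp
    simp_rw [hz1] at e1
    rw [← Finset.mul_sum, e2, hkz] at e1
    have : (m : ℤ) * ∑ q, z q = m * (2 * N) := by rw [e1]; ring
    exact mul_left_cancel₀ hmz this
  have hcard : (Finset.univ.filter (fun q => z q = -1)).card = K := by
    have e1 : ∑ q, z q = 4 * (N : ℤ) ^ 2
        - 2 * ((Finset.univ.filter (fun q => z q = -1)).card : ℤ) := by
      have e3 : ∀ q, z q = 1 - 2 * (if z q = -1 then (1 : ℤ) else 0) := by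
        intro q
        rcases hpm q with h | h <;> simp [h]
      rw [Finset.card_filter]
      push_cast
      rw [Finset.sum_congr rfl fun q _ => e3 q, Finset.sum_sub_distrib, ← Finset.mul_sum]
      simp [hc]
    rw [hsum] at e1
    have e2 : ((Finset.univ.filter (fun q => z q = -1)).card : ℤ) = K := by linarith
    exact_mod_cast e2
  refine ⟨hcard, fun g hg => ?_⟩
  have e1 := hz2 g
  rw [if_neg hg, hzs, conv_sgn, hcard, hcz, hKz] at e1
  have e2 : (reps (Finset.univ.filter (fun q => z q = -1)) (Finset.univ.filter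
      (fun q => z q = -1)) g : ℤ) = L := by linarith
  exact_mod_cast e2

theorem sum_conv {Q : Type} [Group Q] [Fintype Q] (a b : Q → ℤ) :
    ∑ q, conv a b q = (∑ q, a q) * ∑ q, b q := by
  unfold conv
  rw [Finset.sum_comm, Finset.mul_sum]
  refine Finset.sum_congr rfl fun x _ => ?_
  rw [← Finset.sum_mul]
  congr 1
  exact Fintype.sum_equiv (Equiv.mulRight x) _ _ fun q => rfl

theorem sum_sq {Q : Type} [CommGroup Q] [Fintype Q] [DecidableEq Q] (a b : Q → ℤ)
    (c : ℤ) (ha : ∀ q, conv a a q = if q = 1 then c else 0) :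
    ∑ q, conv a b q * conv a b q = c * ∑ x, b x * b x := by
  have h1 : ∀ q, conv a b q * conv a b q
      = ∑ x, ∑ y, (b x * b y) * (a (q * x) * a (q * y)) := by
    intro q
    unfold conv
    rw [Finset.sum_mul_sum]
    refine Finset.sum_congr rfl fun x _ => Finset.sum_congr rfl fun y _ => ?_
    ring
  simp_rw [h1]
  rw [Finset.sum_comm]
  rw [Finset.mul_sum]
  refine Finset.sum_congr rfl fun x _ => ?_
  rw [Finset.sum_comm]
  have h2 : ∀ y, ∑ q, (b x * b y) * (a (q * x) * a (q * y))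
      = (b x * b y) * (if x * y⁻¹ = 1 then c else 0) := by
    intro y
    rw [← Finset.mul_sum, ← ha (x * y⁻¹)]
    congr 1
    unfold conv
    refine Fintype.sum_equiv (Equiv.mulRight y) _ _ fun q => ?_
    simp only [Equiv.coe_mulRight]
    congr 2
    rw [mul_comm q y, mul_assoc x, inv_mul_cancel_left, mul_comm]
  simp_rw [h2]
  rw [Finset.sum_eq_single x]
  · simp
    ring
  · intro y _ hy
    rw [if_neg, mul_zero]
    intro h
    exact hy (mul_inv_eq_one.1 h).symm
  · intro h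
    exact absurd (Finset.mem_univ _) h

theorem sum_sgn {Q : Type} [Fintype Q] [DecidableEq Q] {N K : ℕ} (hK : K + N = 2 * N ^ 2)
    (hc : Fintype.card Q = 4 * N ^ 2) (D : Finset Q) (hD : D.card = K) :
    ∑ q, sgn D q = 2 * N := by
  have hKz : (K : ℤ) = 2 * (N : ℤ) ^ 2 - N := by
    have : ((K + N : ℕ) : ℤ) = ((2 * N ^ 2 : ℕ) : ℤ) := by rw [hK]
    push_cast at this
    linarith
  have e3 : ∀ g, sgn D g = 1 - 2 * (if g ∈ D then (1 : ℤ) else 0) := by
    intro g
    unfold sgn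
    by_cases b : g ∈ D <;> simp [b]
  simp_rw [e3]
  rw [Finset.sum_sub_distrib, ← Finset.mul_sum, sum_ind, hD, hKz]
  simp [hc]
  ring

theorem sgn_sq {Q : Type} [DecidableEq Q] (D : Finset Q) (q : Q) : sgn D q * sgn D q = 1 := by
  unfold sgn
  split_ifs <;> simp

theorem conv_self {Q : Type} [Group Q] [Fintype Q] [DecidableEq Q] {N K L : ℕ}
    (hK : K + N = 2 * N ^ 2) (hL : L + N = N ^ 2) (hc : Fintype.card Q = 4 * N ^ 2)
    (D : Finset Q) (hD : IsDiffSet D K L) (q : Q) :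
    conv (sgn D) (sgn D) q = if q = 1 then 4 * (N : ℤ) ^ 2 else 0 := by
  have hKz : (K : ℤ) = 2 * (N : ℤ) ^ 2 - N := by
    have : ((K + N : ℕ) : ℤ) = ((2 * N ^ 2 : ℕ) : ℤ) := by rw [hK]
    push_cast at this
    linarith
  have hLz : (L : ℤ) = (N : ℤ) ^ 2 - N := by
    have : ((L + N : ℕ) : ℤ) = ((N ^ 2 : ℕ) : ℤ) := by rw [hL]
    push_cast at this
    linarith
  rw [conv_sgn, hc, hD.1]
  by_cases hq : q = 1
  · rw [if_pos hq, hq, reps_one, hD.1]
    push_cast
    ring
  · rw [if_neg hq, hD.2 q hq, hKz, hLz]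
    push_cast
    ring

theorem link {G Q : Type} [Group G] [Fintype G] [DecidableEq G] [CommGroup Q] [Fintype Q]
    [DecidableEq Q] {N K L : ℕ} (hN : 2 ≤ N) (hK : K + N = 2 * N ^ 2) (hL : L + N = N ^ 2)
    (hc : Fintype.card Q = 4 * N ^ 2) (m k : ℕ) (hm : 0 < m)
    (hG : Fintype.card G = 4 * N ^ 2 * m ^ 2)
    (f : G →* Q) (hf : Function.Surjective f) (D₁ D₂ E : Finset G) (h₁ : D₁.card = k)
    (h₂ : D₂.card = k) (D₁' D₂' E' : Finset Q) (h₁' : IsDiffSet D₁' K L)
    (h₂' : IsDiffSet D₂' K L) (hE' : IsDiffSet E' K L)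
    (e₁ : ∀ q, push f (sgn D₁) q = m * sgn D₁' q) (e₂ : ∀ q, push f (sgn D₂) q = m * sgn D₂' q)
    (eE : ∀ q, push f (sgn E) q = m * sgn E' q) (μ ν κ : ℤ)
    (hκ : κ = 4 * (N : ℤ) ^ 2 * (m : ℤ) ^ 2 - 4 * k + 4 * ν + 2 * (μ - ν))
    (hrel : ∀ g, (reps D₁ D₂ g : ℤ) = (μ - ν) * (if g ∈ E then (1 : ℤ) else 0) + ν) :
    (κ = 0 ∨ κ = 2) ∧ ∀ q, 4 * (reps D₁' D₂' q : ℤ)
      = κ - 2 * N * (κ - 1) * sgn E' q + 4 * (N : ℤ) ^ 2 - 4 * N := by
  have hKz : (K : ℤ) = 2 * (N : ℤ) ^ 2 - N := by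
    have : ((K + N : ℕ) : ℤ) = ((2 * N ^ 2 : ℕ) : ℤ) := by rw [hK]
    push_cast at this
    linarith
  have hGz : (Fintype.card G : ℤ) = 4 * (N : ℤ) ^ 2 * (m : ℤ) ^ 2 := by rw [hG]; push_cast; ring
  have hcz : (Fintype.card Q : ℤ) = 4 * (N : ℤ) ^ 2 := by rw [hc]; push_cast; ring
  have hmz : (m : ℤ) ≠ 0 := by exact_mod_cast hm.ne'
  have hNz : (N : ℤ) ≠ 0 := by
    have : N ≠ 0 := by omega
    exact_mod_cast this
  have hN2 : (2 : ℤ) ≤ N := by exact_mod_cast hN
  have hfib := push_const f hf (m ^ 2) (by rw [hG, hc])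
  obtain ⟨δ, hδ⟩ : ∃ δ : ℤ, δ = μ - ν := ⟨_, rfl⟩
  rw [← hδ] at hκ
  have h1 : ∀ g, conv (sgn D₁) (sgn D₂) g = κ - 2 * δ * sgn E g := by
    intro g
    rw [conv_sgn, hGz, h₁, h₂, hrel, ← hδ, hκ]
    unfold sgn
    split_ifs <;> ring
  have h2 : ∀ r, (m : ℤ) * conv (sgn D₁') (sgn D₂') r = m * κ - 2 * δ * sgn E' r := by
    intro r
    have a1 := conv_push f (sgn D₁) (sgn D₂) r
    have a2 : conv (push f (sgn D₁)) (push f (sgn D₂)) r
        = (m : ℤ) ^ 2 * conv (sgn D₁') (sgn D₂') r := by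
      unfold conv
      rw [Finset.mul_sum]
      refine Finset.sum_congr rfl fun x _ => ?_
      rw [e₁, e₂]
      ring
    have a3 : push f (conv (sgn D₁) (sgn D₂)) r = (m : ℤ) ^ 2 * κ - 2 * δ * (m * sgn E' r) := by
      rw [← eE]
      unfold push
      have a4 : ∀ g, (if f g = r then conv (sgn D₁) (sgn D₂) g else 0)
          = κ * (if f g = r then (1 : ℤ) else 0) - 2 * δ * (if f g = r then sgn E g else 0) := by
        intro g
        rw [h1]
        split_ifs <;> ring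
      simp_rw [a4]
      rw [Finset.sum_sub_distrib, ← Finset.mul_sum, ← Finset.mul_sum]
      have e3 := hfib r
      rw [Finset.card_filter] at e3
      have e4 : (∑ g, if f g = r then (1 : ℤ) else 0) = (m : ℤ) ^ 2 := by
        have := congrArg (fun n : ℕ => (n : ℤ)) e3
        push_cast at this
        exact this
      rw [e4]
      ring
    rw [a2, a3] at a1
    have a5 : (m : ℤ) * (m * conv (sgn D₁') (sgn D₂') r) = m * (m * κ - 2 * δ * sgn E' r) := by
      linarith
    exact mul_left_cancel₀ hmz a5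
  have s1 : ∑ r, conv (sgn D₁') (sgn D₂') r = 4 * (N : ℤ) ^ 2 := by
    rw [sum_conv, sum_sgn hK hc _ h₁'.1, sum_sgn hK hc _ h₂'.1]
    ring
  have s2 : ∑ r, conv (sgn D₁') (sgn D₂') r * conv (sgn D₁') (sgn D₂') r
      = 16 * (N : ℤ) ^ 4 := by
    rw [sum_sq _ _ _ (conv_self hK hL hc _ h₁')]
    simp_rw [sgn_sq]
    rw [Finset.sum_const, Finset.card_univ, nsmul_eq_mul, hcz]
    ring
  have sE := sum_sgn hK hc _ hE'.1
  have hδκ : δ = m * N * (κ - 1) := by
    have b1 : ∑ r, (m : ℤ) * conv (sgn D₁') (sgn D₂') r = ∑ r, (m * κ - 2 * δ * sgn E' r) :=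
      Finset.sum_congr rfl fun r _ => h2 r
    have b5 : ∑ r, 2 * δ * sgn E' r = 2 * δ * (2 * N) := by rw [← Finset.mul_sum, sE]
    have b6 : ∑ _r : Q, (m : ℤ) * κ = 4 * (N : ℤ) ^ 2 * (m * κ) := by
      rw [Finset.sum_const, Finset.card_univ, nsmul_eq_mul, hcz]
    rw [← Finset.mul_sum, s1, Finset.sum_sub_distrib, b5, b6] at b1
    have b7 : (4 * (N : ℤ)) * δ = (4 * (N : ℤ)) * (m * N * (κ - 1)) := by
      linear_combination b1
    exact mul_left_cancel₀ (mul_ne_zero (by norm_num) hNz) b7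
  have hsq : 16 * (N : ℤ) ^ 4 * (m : ℤ) ^ 2
      = 4 * (N : ℤ) ^ 2 * ((m : ℤ) ^ 2 * κ ^ 2 + 4 * δ ^ 2) - 8 * N * m * κ * δ := by
    have b1 : ∑ r, ((m : ℤ) * conv (sgn D₁') (sgn D₂') r) * (m * conv (sgn D₁') (sgn D₂') r)
        = ∑ r, (m * κ - 2 * δ * sgn E' r) * (m * κ - 2 * δ * sgn E' r) :=
      Finset.sum_congr rfl fun r _ => by rw [h2 r]
    have b2 : ∑ r, ((m : ℤ) * conv (sgn D₁') (sgn D₂') r) * (m * conv (sgn D₁') (sgn D₂') r)
        = (m : ℤ) ^ 2 * (16 * (N : ℤ) ^ 4) := by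
      rw [← s2, Finset.mul_sum]
      exact Finset.sum_congr rfl fun r _ => by ring
    have b3 : ∑ r, (m * κ - 2 * δ * sgn E' r) * (m * κ - 2 * δ * sgn E' r)
        = 4 * (N : ℤ) ^ 2 * ((m : ℤ) ^ 2 * κ ^ 2 + 4 * δ ^ 2) - 8 * N * m * κ * δ := by
      have b4 : ∀ r, (m * κ - 2 * δ * sgn E' r) * (m * κ - 2 * δ * sgn E' r)
          = ((m : ℤ) ^ 2 * κ ^ 2 + 4 * δ ^ 2) - (4 * m * κ * δ) * sgn E' r := by
        intro r
        have := sgn_sq E' r
        linear_combination (4 * δ ^ 2) * this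
      simp_rw [b4]
      rw [Finset.sum_sub_distrib, ← Finset.mul_sum, sE, Finset.sum_const, Finset.card_univ,
        nsmul_eq_mul, hcz]
      ring
    rw [b2, b3] at b1
    linarith
  have hκ2 : κ = 0 ∨ κ = 2 := by
    rw [hδκ] at hsq
    have c1 : (4 * (N : ℤ) ^ 2 * (m : ℤ) ^ 2 * (4 * (N : ℤ) ^ 2 - 1)) * (κ * (κ - 2)) = 0 := by
      linear_combination (-1 : ℤ) * hsq
    have c3 : (4 * (N : ℤ) ^ 2 * (m : ℤ) ^ 2 * (4 * (N : ℤ) ^ 2 - 1)) ≠ 0 := by
      refine mul_ne_zero (mul_ne_zero (mul_ne_zero (by norm_num) (pow_ne_zero 2 hNz))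
        (pow_ne_zero 2 hmz)) ?_
      nlinarith
    rcases mul_eq_zero.1 c1 with h | h
    · exact absurd h c3
    · rcases mul_eq_zero.1 h with h | h
      · exact Or.inl h
      · exact Or.inr (by linarith)
  refine ⟨hκ2, fun q => ?_⟩
  have hC : conv (sgn D₁') (sgn D₂') q = κ - 2 * N * (κ - 1) * sgn E' q := by
    have b := h2 q
    rw [hδκ] at b
    have b' : (m : ℤ) * conv (sgn D₁') (sgn D₂') q
        = m * (κ - 2 * N * (κ - 1) * sgn E' q) := by
      rw [b]; ring
    exact mul_left_cancel₀ hmz b'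
  rw [conv_sgn, hcz, h₁'.1, h₂'.1, hKz] at hC
  linarith

/-- `G` contains a reduced linking system of `(v, k, lam)`-difference sets, where `v` is the order
of `G`. -/
def HasLinkingSystem (G : Type) [Group G] [Fintype G] [DecidableEq G] (k lam : ℕ) : Prop :=
  ∃ (l : ℕ) (μ ν : ℤ) (D : Fin l → Finset G), 2 ≤ l ∧ Function.Injective D ∧
    (∀ i, IsDiffSet (D i) k lam) ∧
    ∀ i j, i ≠ j → ∃ E : Finset G, IsDiffSet E k lam ∧
      ∀ g, (reps (D i) (D j) g : ℤ) = (μ - ν) * (if g ∈ E then (1 : ℤ) else 0) + ν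

/-- Let `N ≥ 2`, let `m` be odd, let `G` be a group of order `4 (N m)^2` and let `Q` be a
commutative group of order `4 N^2` with `q^n = 1` for all `q` that is a homomorphic image of `G`,
where every prime divisor `p` of `m` has a power `p^j`, `j > 0`, with `n ∣ p^j + 1`.  If `G`
contains a reduced linking system with the Menon parameters
`(4 (N m)^2, 2 (N m)^2 - N m, (N m)^2 - N m)`, then `Q` contains a reduced linking system with the
Menon parameters `(4 N^2, 2 N^2 - N, N^2 - N)`. -/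
theorem result {G Q : Type} [Group G] [Fintype G] [DecidableEq G] [CommGroup Q] [Fintype Q]
    [DecidableEq Q] (N m n : ℕ) (hN : 2 ≤ N) (hm : Odd m)
    (hp : ∀ p, p.Prime → p ∣ m → ∃ j, 0 < j ∧ n ∣ p ^ j + 1)
    (hG : Fintype.card G = 4 * (N * m) ^ 2) (hQ : Fintype.card Q = 4 * N ^ 2)
    (hQn : ∀ q : Q, q ^ n = 1) (f : G →* Q) (hf : Function.Surjective f)
    (h : HasLinkingSystem G (2 * (N * m) ^ 2 - N * m) ((N * m) ^ 2 - N * m)) :
    HasLinkingSystem Q (2 * N ^ 2 - N) (N ^ 2 - N) := by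
  obtain ⟨l, μ, ν, D, hl, -, hD, hrel⟩ := h
  have hmodd : m % 2 = 1 := Nat.odd_iff.1 hm
  have hm0 : 0 < m := by omega
  have hn2 : N ≤ N ^ 2 := by nlinarith
  have hnm : N * m ≤ (N * m) ^ 2 := by
    have : 0 < N * m := Nat.mul_pos (by omega) hm0
    nlinarith
  have hG' : Fintype.card G = 4 * N ^ 2 * m ^ 2 := by rw [hG]; ring
  have hk : (2 * (N * m) ^ 2 - N * m) + N * m = 2 * N ^ 2 * m ^ 2 := by
    rw [Nat.sub_add_cancel (by omega)]; ring
  have hlam : ((N * m) ^ 2 - N * m) + N * m = N ^ 2 * m ^ 2 := by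
    rw [Nat.sub_add_cancel hnm]; ring
  have hK : (2 * N ^ 2 - N) + N = 2 * N ^ 2 := by omega
  have hL : (N ^ 2 - N) + N = N ^ 2 := by omega
  obtain ⟨K, hKd⟩ : ∃ K, K = 2 * N ^ 2 - N := ⟨_, rfl⟩
  obtain ⟨L, hLd⟩ : ∃ L, L = N ^ 2 - N := ⟨_, rfl⟩
  rw [← hKd] at hK ⊢
  rw [← hLd] at hL ⊢
  have tr := fun (D : Finset G) hD =>
    transfer hQn N hQ K L hK hL m _ _ hm0 hmodd hp hG' hk hlam f hf D hD
  obtain ⟨i, hi⟩ : ∃ i : Fin l, i.val = 0 := ⟨⟨0, by omega⟩, rfl⟩
  obtain ⟨j, hj⟩ : ∃ j : Fin l, j.val = 1 := ⟨⟨1, by omega⟩, rfl⟩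
  have hij : i ≠ j := fun e => by rw [e] at hi; omega
  obtain ⟨A, hA, eA⟩ := tr (D i) (hD i)
  obtain ⟨B, hB, eB⟩ := tr (D j) (hD j)
  obtain ⟨E₁, hE₁, r₁⟩ := hrel i j hij
  obtain ⟨E₂, hE₂, r₂⟩ := hrel j i hij.symm
  obtain ⟨F₁, hF₁, eF₁⟩ := tr E₁ hE₁
  obtain ⟨F₂, hF₂, eF₂⟩ := tr E₂ hE₂
  obtain ⟨κ, hκ⟩ : ∃ κ : ℤ, κ = 4 * (N : ℤ) ^ 2 * (m : ℤ) ^ 2
      - 4 * ((2 * (N * m) ^ 2 - N * m : ℕ) : ℤ) + 4 * ν + 2 * (μ - ν) := ⟨_, rfl⟩
  obtain ⟨hκ2, k₁⟩ := link hN hK hL hQ m _ hm0 hG' f hf (D i) (D j) E₁ (hD i).1 (hD j).1 A B F₁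
    hA hB hF₁ eA eB eF₁ μ ν κ hκ r₁
  obtain ⟨-, k₂⟩ := link hN hK hL hQ m _ hm0 hG' f hf (D j) (D i) E₂ (hD j).1 (hD i).1 B A F₂
    hB hA hF₂ eB eA eF₂ μ ν κ hκ r₂
  have hN2 : (2 : ℤ) ≤ N := by exact_mod_cast hN
  have hLz : (L : ℤ) = (N : ℤ) ^ 2 - N := by
    have : ((L + N : ℕ) : ℤ) = ((N ^ 2 : ℕ) : ℤ) := by rw [hL]
    push_cast at this
    linarith
  have hcardQ : 1 < Fintype.card Q := by rw [hQ]; nlinarith
  have hAB : A ≠ B := by
    intro e
    rw [← e] at k₁
    have : Nontrivial Q := Fintype.one_lt_card_iff_nontrivial.1 hcardQ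
    obtain ⟨q, hq⟩ := exists_ne (1 : Q)
    have b := k₁ q
    rw [hA.2 q hq, hLz] at b
    rcases hκ2 with h | h
    · rw [h] at b
      unfold sgn at b
      split_ifs at b <;> linarith
    · rw [h] at b
      unfold sgn at b
      split_ifs at b <;> linarith
  have hK0 : 0 < K := by nlinarith
  have hKQ : K < Fintype.card Q := by rw [hQ]; nlinarith
  obtain ⟨q₁, hq₁⟩ : ∃ q, q ∈ F₁ := Finset.card_pos.1 (by rw [hF₁.1]; exact hK0)
  obtain ⟨q₀, hq₀⟩ : ∃ q, q ∉ F₁ := by
    by_contra hcon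
    push Not at hcon
    have : F₁ = Finset.univ := Finset.eq_univ_iff_forall.2 hcon
    have h2 := hF₁.1
    rw [this, Finset.card_univ] at h2
    omega
  have v₁ := k₁ q₁
  have v₀ := k₁ q₀
  unfold sgn at v₁ v₀
  rw [if_pos hq₁] at v₁
  rw [if_neg hq₀] at v₀
  have w₁ : ∀ q, (reps A B q : ℤ) = ((reps A B q₁ : ℤ) - reps A B q₀)
      * (if q ∈ F₁ then (1 : ℤ) else 0) + reps A B q₀ := by
    intro q
    have b := k₁ q
    unfold sgn at b
    split_ifs at b ⊢ <;> linarith
  have w₂ : ∀ q, (reps B A q : ℤ) = ((reps A B q₁ : ℤ) - reps A B q₀)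
      * (if q ∈ F₂ then (1 : ℤ) else 0) + reps A B q₀ := by
    intro q
    have b := k₂ q
    unfold sgn at b
    split_ifs at b ⊢ <;> linarith
  refine ⟨2, reps A B q₁, reps A B q₀, ![A, B], le_rfl, ?_, ?_, ?_⟩
  · intro a b hab
    fin_cases a <;> fin_cases b
    · rfl
    · exact absurd hab hAB
    · exact absurd hab.symm hAB
    · rfl
  · intro a
    fin_cases a
    · exact hA
    · exact hB
  · intro a b hab
    fin_cases a <;> fin_cases b
    · exact absurd rfl hab
    · exact ⟨F₁, hF₁, w₁⟩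
    · exact ⟨F₂, hF₂, w₂⟩
    · exact absurd rfl hab

end Pool.Agent.Results.MP_16ad2f_co.MenonQuotient
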